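import Mathlib

set_option autoImplicit false

/-!
# An `(n² - 2)`-orthogonal pair of latin squares of order 6 which is not near-orthogonal after any relabelling
-/

namespace Pool.Agent.Results.MP_9a0911_co.OrderSix

/-- `L` is a latin square of order `n` on the symbols `Fin n`. -/
def IsLatin {n : ℕ} (L : Fin n → Fin n → Fin n) : Prop :=
  (∀ i, Function.Bijective (L i)) ∧ ∀ j, Function.Bijective fun i => L i j

/-- The set of ordered pairs of symbols which occur when `L` and `M` are superimposed. -/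
def pairs {n : ℕ} (L M : Fin n → Fin n → Fin n) : Finset (Fin n × Fin n) :=
  Finset.univ.image fun p : Fin n × Fin n => (L p.1 p.2, M p.1 p.2)

/-- The pair `(L, M)` is `r`-orthogonal: exactly `r` distinct ordered pairs occur. -/
def IsOrthogonal {n : ℕ} (r : ℕ) (L M : Fin n → Fin n → Fin n) : Prop := (pairs L M).card = r

/-- `L` has a `2 × 2` latin subsquare in the rows `i ≠ i'` and the columns `j ≠ j'`. -/
def IsSubsquare {n : ℕ} (L : Fin n → Fin n → Fin n) (i i' j j' : Fin n) : Prop :=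
  i ≠ i' ∧ j ≠ j' ∧ L i j = L i' j' ∧ L i j' = L i' j ∧ L i j ≠ L i j'

/-- The pair `(L, M)` is near-orthogonal: it is `(n² - 2)`-orthogonal and on some two rows and two columns both squares
have a `2 × 2` latin subsquare, with the same two symbols. -/
def NearOrthogonal {n : ℕ} (L M : Fin n → Fin n → Fin n) : Prop :=
  IsOrthogonal (n ^ 2 - 2) L M ∧ ∃ i i' j j' : Fin n, IsSubsquare L i i' j j' ∧ IsSubsquare M i i' j j' ∧
    ({L i j, L i j'} : Finset (Fin n)) = {M i j, M i j'}

/-- The first square. -/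
def A : Fin 6 → Fin 6 → Fin 6 :=
  ![![0, 1, 2, 3, 4, 5], ![1, 0, 3, 2, 5, 4], ![2, 3, 5, 4, 1, 0], ![3, 2, 4, 5, 0, 1], ![4, 5, 1, 0, 3, 2],
    ![5, 4, 0, 1, 2, 3]]

/-- The second square. -/
def B : Fin 6 → Fin 6 → Fin 6 :=
  ![![5, 2, 0, 1, 3, 4], ![3, 4, 5, 2, 0, 1], ![1, 0, 3, 4, 5, 2], ![4, 3, 2, 5, 1, 0], ![0, 1, 4, 3, 2, 5],
    ![2, 5, 1, 0, 4, 3]]

theorem latA : IsLatin A := by unfold IsLatin; decide +kernel

theorem latB : IsLatin B := by unfold IsLatin; decide +kernel

theorem cardAB : (pairs A B).card = 34 := by decide +kernel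

theorem noCommon : ∀ i i' j j' : Fin 6, i ≠ i' → j ≠ j' → A i j = A i' j' → A i j' = A i' j →
    B i j = B i' j' → B i j' = B i' j → False := by decide +kernel

/-- There is a `(6² - 2)`-orthogonal pair of latin squares of order `6` such that there are no two rows and two columns on
which both squares have a `2 × 2` latin subsquare; equivalently no relabelling of the second square makes the pair
near-orthogonal. -/
theorem result : ∃ L M : Fin 6 → Fin 6 → Fin 6, IsLatin L ∧ IsLatin M ∧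
    IsOrthogonal (6 ^ 2 - 2) L M ∧
    (¬ ∃ i i' j j' : Fin 6, IsSubsquare L i i' j j' ∧ IsSubsquare M i i' j j') ∧
    ∀ σ : Equiv.Perm (Fin 6), ¬ NearOrthogonal L fun i j => σ (M i j) := by
  have h : ¬ ∃ i i' j j' : Fin 6, IsSubsquare A i i' j j' ∧ IsSubsquare B i i' j j' := by
    rintro ⟨i, i', j, j', ⟨h1, h2, h3, h4, -⟩, -, -, h5, h6, -⟩
    exact noCommon i i' j j' h1 h2 h3 h4 h5 h6
  refine ⟨A, B, latA, latB, cardAB, h, ?_⟩
  rintro σ ⟨-, i, i', j, j', h1, ⟨h2, h3, h4, h5, h6⟩, -⟩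
  exact h ⟨i, i', j, j', h1, h2, h3, σ.injective h4, σ.injective h5, fun e => h6 (congrArg σ e)⟩

end Pool.Agent.Results.MP_9a0911_co.OrderSix
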